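import Pool.Agent.TH637.Sq.Fin
import Pool.Agent.TH637.Sq.Bal

/-!
# Squeezing function tending to one at a weakly pseudoconvex point of finite type

The egg domain `D = {|z|² + |w|⁴ < 1}` in `ℂ²` is bounded, convex, with `C^∞` boundary which is
everywhere Levi-pseudoconvex and of finite type, it is not strongly pseudoconvex at `p = (1,0)`,
and there is a sequence in `D` tending to `p` along which the squeezing function tends to `1`.
All definitions are in `Pool.Agent.TH637.Sq.Defs`.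
-/

open Set Filter Topology
open TH637.Sq

namespace Pool.Agent.Results.MP_63facb_an.SqueezingEgg

/-- the parameters of the sequence -/
noncomputable def b (ν : ℕ) : ℝ := 1 / ((ν : ℝ) + 2)

theorem b_pos (ν : ℕ) : 0 < b ν := by unfold b; positivity

theorem b_le (ν : ℕ) : b ν ≤ 1 / 2 := by
  unfold b
  rw [div_le_div_iff₀ (by positivity) (by norm_num)]
  have : (0 : ℝ) ≤ ν := by positivity
  linarith

theorem b_tendsto : Tendsto b atTop (𝓝 0) := by
  have h1 : Tendsto (fun ν : ℕ => (ν : ℝ) + 2) atTop atTop :=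
    tendsto_natCast_atTop_atTop.atTop_add tendsto_const_nhds
  have := h1.inv_tendsto_atTop
  refine this.congr fun ν => ?_
  simp [b]

/-- the sequence -/
noncomputable def zseq (ν : ℕ) : Cn 2 :=
  !₂[((Real.sqrt (1 - b ν ^ 4) : ℝ) : ℂ), ((b ν * (1 - b ν) : ℝ) : ℂ)]

theorem zseq_mem (ν : ℕ) : zseq ν ∈ egg := by
  have hb := b_pos ν
  have hb2 := b_le ν
  have hb4 : b ν ^ 4 < 1 := pow_lt_one₀ hb.le (by linarith) (by norm_num)
  show ‖zseq ν 0‖ ^ 2 + ‖zseq ν 1‖ ^ 4 < 1
  have e0 : zseq ν 0 = ((Real.sqrt (1 - b ν ^ 4) : ℝ) : ℂ) := by simp [zseq]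
  have e1 : zseq ν 1 = ((b ν * (1 - b ν) : ℝ) : ℂ) := by simp [zseq]
  rw [e0, e1, Complex.norm_real, Complex.norm_real, Real.norm_eq_abs, Real.norm_eq_abs, sq_abs,
    Real.sq_sqrt (by linarith), abs_of_pos (by nlinarith), mul_pow]
  have h1 : (1 - b ν) ^ 4 < 1 := pow_lt_one₀ (by linarith) (by linarith) (by norm_num)
  have h2 : 0 < b ν ^ 4 := by positivity
  nlinarith

theorem zseq_tendsto : Tendsto zseq atTop (𝓝 pt) := by
  have hc : Continuous (fun t : ℝ =>
      (((Real.sqrt (1 - t ^ 4) : ℝ) : ℂ) • (!₂[1, 0] : Cn 2)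
        + ((t * (1 - t) : ℝ) : ℂ) • (!₂[0, 1] : Cn 2))) := by
    fun_prop
  have h := (hc.tendsto 0).comp b_tendsto
  have e : (((Real.sqrt (1 - (0:ℝ) ^ 4) : ℝ) : ℂ) • (!₂[1, 0] : Cn 2)
        + (((0:ℝ) * (1 - 0) : ℝ) : ℂ) • (!₂[0, 1] : Cn 2)) = pt := by
    ext i; fin_cases i <;> simp [pt]
  rw [e] at h
  refine h.congr fun ν => ?_
  ext i; fin_cases i <;> simp [zseq]

theorem zseq_squeezing : Tendsto (fun ν => squeezing egg (zseq ν)) atTop (𝓝 1) := by
  rw [tendsto_order]
  constructor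
  · intro l hl
    -- choose `r` with `max l 0 < r < 1`
    obtain ⟨r, hr1, hr2⟩ := exists_between (max_lt hl (zero_lt_one (α := ℝ)))
    have hlr : l < r := lt_of_le_of_lt (le_max_left _ _) hr1
    have hr0 : 0 < r := lt_of_le_of_lt (le_max_right _ _) hr1
    have hpos : 0 < (1 - r ^ 2) * (1 - r) ^ 2 := by
      have h1 : 0 < 1 - r ^ 2 := by nlinarith
      have h2 : 0 < 1 - r := by linarith
      positivity
    have hev : ∀ᶠ ν in atTop, 136 * b ν < (1 - r ^ 2) * (1 - r) ^ 2 := by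
      have : Tendsto (fun ν => 136 * b ν) atTop (𝓝 (136 * 0)) := b_tendsto.const_mul 136
      rw [mul_zero] at this
      exact this.eventually (gt_mem_nhds hpos)
    filter_upwards [hev] with ν hν
    have hb := b_pos ν
    have hb2 := b_le ν
    have hb4 : b ν ^ 4 < 1 := pow_lt_one₀ hb.le (by linarith) (by norm_num)
    set a := Real.sqrt (1 - b ν ^ 4) with ha
    set t := 1 - b ν with ht
    set s := (t + 1) / 2 with hs
    set c := Real.sqrt (1 - s ^ 2) with hc
    have hs0 : 0 < s := by rw [hs, ht]; linarith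
    have hs1 : s < 1 := by rw [hs, ht]; linarith
    have hc2 : c ^ 2 = 1 - s ^ 2 := Real.sq_sqrt (by nlinarith)
    have hab : a ^ 2 = 1 - b ν ^ 4 := Real.sq_sqrt (by linarith)
    have hmem : r ∈ radii egg (!₂[0, (t : ℂ)] : Cn 2) :=
      mem_radii hs0 hs1 hc2 hr0 hr2 (by
        have : 272 * (1 - s) = 136 * b ν := by rw [hs, ht]; ring
        rw [this]; exact hν) hs
    have hmem2 : r ∈ radii egg (zseq ν) :=
      radii_T hb hab (T_base (a := a) (b := b ν) (t := t) hb hab) hmem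
    exact lt_of_lt_of_le hlr (le_squeezing (by norm_num) hmem2)
  · intro u hu
    exact Eventually.of_forall fun ν => lt_of_le_of_lt (squeezing_le_one (by norm_num)) hu

theorem pt_frontier : pt ∈ frontier egg := by
  rw [frontier_egg_iff]
  simp [rho, pt]

/-- The egg domain `D = {|z|² + |w|⁴ < 1} ⊂ ℂ²` and `p = (1,0) ∈ ∂D`: `D` is a bounded domain,
`(D,p)` is admissible in each of the senses (A), (B), (C), the squeezing function of `D` tends to
`1` along some sequence of points of `D` tending to `p`, and `∂D` is not strongly pseudoconvex at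
`p`. -/
theorem result :
    IsOpen egg ∧ IsConnected egg ∧ Bornology.IsBounded egg ∧ pt ∈ frontier egg ∧
      CaseA egg pt ∧ CaseB egg pt ∧ CaseC egg pt ∧
      (∃ z : ℕ → Cn 2, (∀ ν, z ν ∈ egg) ∧ Tendsto z atTop (𝓝 pt) ∧
        Tendsto (fun ν => squeezing egg (z ν)) atTop (𝓝 1)) ∧
      ¬ StronglyPseudoconvexAt egg pt := by
  have hft : ∀ᶠ q in 𝓝 pt, q ∈ frontier egg → FiniteTypeAt egg q :=
    Eventually.of_forall fun q hq => egg_finiteType ((frontier_egg_iff q).1 hq)
  refine ⟨egg_open, ⟨⟨0, zero_mem_egg⟩, egg_convex.isPreconnected⟩, egg_bounded, pt_frontier,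
    ⟨rfl, egg_levi pt, egg_finiteType ((frontier_egg_iff pt).1 pt_frontier)⟩,
    ⟨le_rfl, egg_levi pt, hft, ?_⟩, ⟨le_rfl, egg_convex, egg_smooth pt, hft⟩,
    ⟨zseq, zseq_mem, zseq_tendsto, zseq_squeezing⟩, egg_not_strong⟩
  refine ⟨univ, rho, mem_univ _, isDefiningOn_rho, ⊥, Nat.zero_le _, fun v hv => ?_⟩
  rw [Submodule.mem_bot] at hv
  subst hv
  exact ⟨⟨by simp, by simp⟩, fun h => absurd rfl h⟩

end Pool.Agent.Results.MP_63facb_an.SqueezingEgg
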